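import Pool.Agent.Helper74.UB.Goals3

/-!
# UB-PHI: the face permutation of a layout
-/

namespace Pool.Agent.Helper27.UB

open Finset Equiv Helper28.VF Pool.Agent.Helper74.UB
open scoped Classical

/-- The face map of a layout as a function. -/
noncomputable def pf {V : Type} (L : Lay V) : DL L → DL L
  | Sum.inl (v, true) =>
    if h : ∃ k, L.up (L.e v) k ∧ ¬ L.up (L.e v) (L.e.symm k) then
      Sum.inr (⟨(L.e v, h.choose), h.choose_spec.1⟩, true)
    else Sum.inl (L.e v, true)
  | Sum.inl (v, false) =>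
    if h : ∃ u, L.up u v ∧ ¬ L.up (L.e u) v then
      Sum.inr (⟨(h.choose, v), h.choose_spec.1⟩, false)
    else Sum.inl (L.e.symm v, false)
  | Sum.inr (p, true) =>
    if h : L.up (L.e.symm p.1.1) p.1.2 then Sum.inr (⟨(L.e.symm p.1.1, p.1.2), h⟩, false)
    else Sum.inl (L.e.symm p.1.2, false)
  | Sum.inr (p, false) =>
    if h : L.up p.1.1 (L.e p.1.2) then Sum.inr (⟨(p.1.1, L.e p.1.2), h⟩, true)
    else Sum.inl (p.1.1, true)

section
variable {V : Type} {L : Lay V} (hL : L.Ax)
include hL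

theorem row_es (v : V) : L.row (L.e.symm v) = L.row v := by
  have := hL.row_e (L.e.symm v)
  simpa using this.symm

theorem pfE1 (v : V) (hv : L.row v = L.r1) :
    pf L (Sum.inl (v, true)) = Sum.inl (L.e v, true) := by
  have h : ¬ ∃ k, L.up (L.e v) k ∧ ¬ L.up (L.e v) (L.e.symm k) := by
    rintro ⟨k, hk, -⟩
    have h1 := hL.up_row _ _ hk
    have h2 := hL.row_e v
    have h3 := (hL.bnd k).2
    omega
  simp only [pf, dif_neg h]

theorem pfE2 (v k : V) (a : L.up (L.e v) k) (b : ¬ L.up (L.e v) (L.e.symm k)) :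
    pf L (Sum.inl (v, true)) = Sum.inr (⟨(L.e v, k), a⟩, true) := by
  have h : ∃ k, L.up (L.e v) k ∧ ¬ L.up (L.e v) (L.e.symm k) := ⟨k, a, b⟩
  have hr : L.row (L.e v) < L.r1 := by
    have h1 := hL.up_row _ _ a
    have h3 := (hL.bnd k).2
    omega
  have hk : h.choose = k := (hL.ul (L.e v) hr).unique h.choose_spec ⟨a, b⟩
  simp only [pf, dif_pos h]
  congr 3
  simp only [hk]

theorem pfW1 (v : V) (hv : L.row v = L.r0) :
    pf L (Sum.inl (v, false)) = Sum.inl (L.e.symm v, false) := by
  have h : ¬ ∃ u, L.up u v ∧ ¬ L.up (L.e u) v := by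
    rintro ⟨k, hk, -⟩
    have h1 := hL.up_row _ _ hk
    have h3 := (hL.bnd k).1
    omega
  simp only [pf, dif_neg h]

theorem pfW2 (u v : V) (a : L.up u v) (b : ¬ L.up (L.e u) v) :
    pf L (Sum.inl (v, false)) = Sum.inr (⟨(u, v), a⟩, false) := by
  have h : ∃ u, L.up u v ∧ ¬ L.up (L.e u) v := ⟨u, a, b⟩
  have hr : L.r0 < L.row v := by
    have h1 := hL.up_row _ _ a
    have h3 := (hL.bnd u).1
    omega
  have hk : h.choose = u := (hL.dr v hr).unique h.choose_spec ⟨a, b⟩
  simp only [pf, dif_pos h]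
  congr 3
  simp only [hk]

omit hL in
theorem pfU1 (v k : V) (a : L.up v k) (b : L.up (L.e.symm v) k) :
    pf L (Sum.inr (⟨(v, k), a⟩, true)) = Sum.inr (⟨(L.e.symm v, k), b⟩, false) := by
  simp only [pf, dif_pos b]

omit hL in
theorem pfU2 (v k : V) (a : L.up v k) (b : ¬ L.up (L.e.symm v) k) :
    pf L (Sum.inr (⟨(v, k), a⟩, true)) = Sum.inl (L.e.symm k, false) := by
  simp only [pf, dif_neg b]

omit hL in
theorem pfN1 (v k : V) (a : L.up v k) (b : L.up v (L.e k)) :
    pf L (Sum.inr (⟨(v, k), a⟩, false)) = Sum.inr (⟨(v, L.e k), b⟩, true) := by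
  simp only [pf, dif_pos b]

omit hL in
theorem pfN2 (v k : V) (a : L.up v k) (b : ¬ L.up v (L.e k)) :
    pf L (Sum.inr (⟨(v, k), a⟩, false)) = Sum.inl (v, true) := by
  simp only [pf, dif_neg b]

omit hL in
theorem inr_eq {v v' k k' : V} {b : Bool} (a : L.up v k) (a' : L.up v' k') (h1 : v = v')
    (h2 : k = k') : (Sum.inr (⟨(v, k), a⟩, b) : DL L) = Sum.inr (⟨(v', k'), a'⟩, b) := by
  subst h1 h2; rfl

theorem pf_surj : Function.Surjective (pf L) := by
  rintro (⟨w, b⟩ | ⟨⟨⟨v, k⟩, a⟩, b⟩)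
  · cases b
    · -- dW w
      by_cases hw : L.row w = L.r0
      · refine ⟨Sum.inl (L.e w, false), ?_⟩
        rw [pfW1 hL (L.e w) (by rw [hL.row_e]; exact hw)]
        simp
      · have hr : L.r0 < L.row (L.e w) := by
          have := (hL.bnd w).1
          rw [hL.row_e]
          omega
        obtain ⟨v, ⟨h1, h2⟩, -⟩ := hL.dl (L.e w) hr
        refine ⟨Sum.inr (⟨(v, L.e w), h1⟩, true), ?_⟩
        rw [pfU2 v (L.e w) h1 h2]
        simp
    · -- dE w
      by_cases hw : L.row w = L.r1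
      · refine ⟨Sum.inl (L.e.symm w, true), ?_⟩
        rw [pfE1 hL (L.e.symm w) (by rw [row_es hL]; exact hw)]
        simp
      · have hr : L.row w < L.r1 := by
          have := (hL.bnd w).2
          omega
        obtain ⟨k, ⟨h1, h2⟩, -⟩ := hL.ur w hr
        exact ⟨Sum.inr (⟨(w, k), h1⟩, false), pfN2 w k h1 h2⟩
  · cases b
    · -- dN v k
      change L.up v k at a
      by_cases h : L.up (L.e v) k
      · refine ⟨Sum.inr (⟨(L.e v, k), h⟩, true), ?_⟩
        rw [pfU1 (L.e v) k h (by simpa using a)]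
        exact inr_eq _ _ (by simp) rfl
      · exact ⟨Sum.inl (k, false), pfW2 hL v k a h⟩
    · -- dU v k
      change L.up v k at a
      by_cases h : L.up v (L.e.symm k)
      · refine ⟨Sum.inr (⟨(v, L.e.symm k), h⟩, false), ?_⟩
        rw [pfN1 v (L.e.symm k) h (by simpa using a)]
        exact inr_eq _ _ rfl (by simp)
      · refine ⟨Sum.inl (L.e.symm v, true), ?_⟩
        rw [pfE2 hL (L.e.symm v) k (by simpa using a) (by simpa using h)]
        exact inr_eq _ _ (by simp) rfl

theorem pf_vt (d : DL L) : L.vt (pf L d) = L.vt (L.al d) := by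
  rcases d with ⟨v, b⟩ | ⟨⟨⟨v, k⟩, a⟩, b⟩
  · cases b
    · change L.vt (pf L (Sum.inl (v, false))) = v
      by_cases hv : L.row v = L.r0
      · rw [pfW1 hL v hv]
        change L.e (L.e.symm v) = v
        simp
      · have hr : L.r0 < L.row v := by
          have := (hL.bnd v).1
          omega
        obtain ⟨u, ⟨h1, h2⟩, -⟩ := hL.dr v hr
        rw [pfW2 hL u v h1 h2]
        rfl
    · change L.vt (pf L (Sum.inl (v, true))) = L.e v
      by_cases hv : L.row v = L.r1
      · rw [pfE1 hL v hv]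
        rfl
      · have hr : L.row (L.e v) < L.r1 := by
          have := (hL.bnd v).2
          rw [hL.row_e]
          omega
        obtain ⟨k, ⟨h1, h2⟩, -⟩ := hL.ul (L.e v) hr
        rw [pfE2 hL v k h1 h2]
        rfl
  · cases b
    · change L.vt (pf L (Sum.inr (⟨(v, k), a⟩, false))) = v
      by_cases h : L.up v (L.e k)
      · rw [pfN1 v k a h]
        rfl
      · rw [pfN2 v k a h]
        rfl
    · change L.vt (pf L (Sum.inr (⟨(v, k), a⟩, true))) = k
      by_cases h : L.up (L.e.symm v) k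
      · rw [pfU1 v k a h]
        rfl
      · rw [pfU2 v k a h]
        change L.e (L.e.symm k) = k
        simp

end

/-- **PHI.** -/
theorem phi : StmtPhi := by
  intro V _ L hL
  have hb : Function.Bijective (pf L) := by
    have hs := pf_surj hL
    exact ⟨Finite.injective_iff_surjective.mpr hs, hs⟩
  refine ⟨Equiv.ofBijective (pf L) hb, ?_, ?_⟩
  · constructor
    · exact fun v hv => pfE1 hL v hv
    · exact fun v k a b => pfE2 hL v k a b
    · exact fun v hv => pfW1 hL v hv
    · exact fun u v a b => pfW2 hL u v a b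
    · exact fun v k a b => pfU1 v k a b
    · exact fun v k a b => pfU2 v k a b
    · exact fun v k a b => pfN1 v k a b
    · exact fun v k a b => pfN2 v k a b
  · exact fun d => pf_vt hL d

end Pool.Agent.Helper27.UB
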